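import Pool.Agent.G02.StmtsS

/-!
# Squad G02, row GD1: good reduction in terms of `a`, `b`
-/

set_option autoImplicit false

namespace Pool.Agent.G02.H17

open Polynomial Pool.Agent.NJ

/-- a valuation ring is integrally closed, for cubic polynomials -/
lemma mem_of_cubic {K : Type} [Field K] (A : ValuationSubring K) (f c₂ c₁ c₀ : K) (h2 : c₂ ∈ A)
    (h1 : c₁ ∈ A) (h0 : c₀ ∈ A) (h : f ^ 3 + c₂ * f ^ 2 + c₁ * f + c₀ = 0) : f ∈ A := by
  rcases A.mem_or_inv_mem f with h3 | h3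
  · exact h3
  · by_cases hf : f = 0
    · rw [hf]; exact A.zero_mem
    · have h4 : f = -(c₂ + c₁ * f⁻¹ + c₀ * (f⁻¹ * f⁻¹)) := by
        field_simp
        linear_combination h
      rw [h4]
      exact A.neg_mem _ (A.add_mem _ _ (A.add_mem _ _ h2 (A.mul_mem _ _ h1 h3))
        (A.mul_mem _ _ h0 (A.mul_mem _ _ h3 h3)))

/-- **GD1**. -/
theorem gd1 : Gd1Stmt := by
  intro W A e a b hC hR hG
  obtain ⟨C, h1, h2, h3, h4, h6, hD, hDi⟩ := hG
  obtain ⟨r2, r4, r6⟩ := hR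
  set W' := C • W with hW'
  set u : RatFunc ℂ := (C.u : RatFunc ℂ) with hu
  have hu0 : u ≠ 0 := C.u.ne_zero
  have hui : ((C.u⁻¹ : (RatFunc ℂ)ˣ) : RatFunc ℂ) = u⁻¹ := by
    rw [hu]; exact Units.val_inv_eq_inv_val C.u
  set e' := (e - C.r) / u ^ 2 with he'
  set a' := a / u ^ 2 with ha'
  set b' := b / u ^ 4 with hb'
  have b2 : W'.b₂ = 4 * a' - 12 * e' := by
    rw [hW', WeierstrassCurve.variableChange_b₂, hui, r2, ha', he']
    field_simp
    ring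
  have b4 : W'.b₄ = 6 * e' ^ 2 - 4 * a' * e' + 2 * b' := by
    rw [hW', WeierstrassCurve.variableChange_b₄, hui, r2, r4, ha', he', hb']
    field_simp
    ring
  have b6 : W'.b₆ = -4 * (e' ^ 3 - a' * e' ^ 2 + b' * e') := by
    rw [hW', WeierstrassCurve.variableChange_b₆, hui, r2, r4, r6, ha', he', hb']
    field_simp
    ring
  have hn : ∀ n : ℕ, (n : RatFunc ℂ) ∈ A := by
    intro n
    have := hC (n : ℂ)
    rwa [map_natCast] at this
  have hq : (4 : RatFunc ℂ)⁻¹ ∈ A := by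
    have := hC (4 : ℂ)⁻¹
    rwa [map_inv₀, map_ofNat] at this
  have hq2 : (2 : RatFunc ℂ)⁻¹ ∈ A := by
    have := hC (2 : ℂ)⁻¹
    rwa [map_inv₀, map_ofNat] at this
  have h4A : (4 : RatFunc ℂ) ∈ A := by exact_mod_cast hn 4
  have h2A : (2 : RatFunc ℂ) ∈ A := by exact_mod_cast hn 2
  have h6A : (6 : RatFunc ℂ) ∈ A := by exact_mod_cast hn 6
  have h12A : (12 : RatFunc ℂ) ∈ A := by exact_mod_cast hn 12
  have h16A : (16 : RatFunc ℂ) ∈ A := by exact_mod_cast hn 16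
  have b2A : W'.b₂ ∈ A := by
    unfold WeierstrassCurve.b₂
    exact A.add_mem _ _ (by rw [pow_two]; exact A.mul_mem _ _ h1 h1) (A.mul_mem _ _ h4A h2)
  have b4A : W'.b₄ ∈ A := by
    unfold WeierstrassCurve.b₄
    exact A.add_mem _ _ (A.mul_mem _ _ h2A h4) (A.mul_mem _ _ h1 h3)
  have b6A : W'.b₆ ∈ A := by
    unfold WeierstrassCurve.b₆
    exact A.add_mem _ _ (by rw [pow_two]; exact A.mul_mem _ _ h3 h3) (A.mul_mem _ _ h4A h6)
  have h40 : (4 : RatFunc ℂ) ≠ 0 := by norm_num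
  have h20 : (2 : RatFunc ℂ) ≠ 0 := by norm_num
  have heA : e' ∈ A := by
    apply mem_of_cubic A e' _ _ _ (A.mul_mem _ _ hq b2A) (A.mul_mem _ _ hq (A.mul_mem _ _ h2A b4A))
      (A.mul_mem _ _ hq b6A)
    rw [b2, b4, b6]
    field_simp
    ring
  have haA : a' ∈ A := by
    have : a' = (4 : RatFunc ℂ)⁻¹ * (W'.b₂ + 12 * e') := by
      rw [b2]
      field_simp
      ring
    rw [this]
    exact A.mul_mem _ _ hq (A.add_mem _ _ b2A (A.mul_mem _ _ h12A heA))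
  have hbA : b' ∈ A := by
    have : b' = (2 : RatFunc ℂ)⁻¹ * (W'.b₄ - 6 * (e' * e') + 4 * (a' * e')) := by
      rw [b4]
      field_simp
      ring
    rw [this]
    exact A.mul_mem _ _ hq2 (A.add_mem _ _ (sub_mem b4A (A.mul_mem _ _ h6A
      (A.mul_mem _ _ heA heA))) (A.mul_mem _ _ h4A (A.mul_mem _ _ haA heA)))
  have hDel : W'.Δ = 16 * b' ^ 2 * (a' ^ 2 - 4 * b') := by
    have hb8 := W'.b_relation
    have hb8' : W'.b₈ = (W'.b₂ * W'.b₆ - W'.b₄ ^ 2) / 4 := by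
      field_simp
      linear_combination hb8
    unfold WeierstrassCurve.Δ
    rw [hb8', b2, b4, b6]
    ring
  have hc : (a ^ 2 - 4 * b) / u ^ 4 = a' ^ 2 - 4 * b' := by
    rw [ha', hb']
    field_simp
  have hcA : a' ^ 2 - 4 * b' ∈ A := by
    rw [pow_two]
    exact sub_mem (A.mul_mem _ _ haA haA) (A.mul_mem _ _ h4A hbA)
  have nb : b' ≠ 0 := by
    intro h; apply hD; rw [hDel, h]; ring
  have nc : a' ^ 2 - 4 * b' ≠ 0 := by
    intro h; apply hD; rw [hDel, h]; ring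
  have k1 : ∀ x y : RatFunc ℂ, x ≠ 0 → y ≠ 0 → x⁻¹ = 16 * x * y * (16 * x ^ 2 * y)⁻¹ := by
    intro x y hx hy
    field_simp
  have k2 : ∀ x y : RatFunc ℂ, x ≠ 0 → y ≠ 0 → y⁻¹ = 16 * (x * x) * (16 * x ^ 2 * y)⁻¹ := by
    intro x y hx hy
    field_simp
  refine ⟨u, hu0, haA, hbA, ?_, ?_, ?_, ?_, ?_⟩
  · rw [k1 b' _ nb nc, ← hDel]
    exact A.mul_mem _ _ (A.mul_mem _ _ (A.mul_mem _ _ h16A hbA) hcA) hDi
  · rw [hc]
    exact hcA
  · rw [hc]
    rw [k2 b' _ nb nc, ← hDel]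
    exact A.mul_mem _ _ (A.mul_mem _ _ h16A (A.mul_mem _ _ hbA hbA)) hDi
  · intro h
    apply nb
    rw [hb', h, zero_div]
  · intro h
    apply nc
    rw [← hc, h, zero_div]

end Pool.Agent.G02.H17
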