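import Pool.Agent.G02.Stmts

/-!
# Squad G02, row LB: local lemma
-/

set_option autoImplicit false

namespace Pool.Agent.G02.H17

/-- **LB**. -/
theorem lb : LbStmt := by
  intro a b d M e N B h l _ hl2 hlb hl1 hl22
  have hp : Prime (l : ℤ) := Nat.prime_iff_prime_int.1 Fact.out
  have hl0 : (l : ℤ) ≠ 0 := hp.ne_zero
  have hld : ¬ (l : ℤ) ∣ d := fun hd => hlb (by rw [h.hb]; exact hd.mul_right B)
  have hl2' : ¬ (l : ℤ) ∣ 2 := by
    intro h2
    have h3 : l ∣ 2 := by exact_mod_cast h2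
    rcases (Nat.dvd_prime Nat.prime_two).1 h3 with h4 | h4
    · exact (Fact.out : l.Prime).one_lt.ne' h4
    · exact hl2 h4
  have key : 4 * d * N ^ 2 = (2 * d * M ^ 2 + a * e ^ 2) ^ 2 - (a ^ 2 - 4 * b) * e ^ 4 := by
    rw [h.eq, h.hb]
    ring
  by_cases hN : (l : ℤ) ∣ N
  · exfalso
    obtain ⟨N', rfl⟩ := hN
    obtain ⟨c, hc⟩ := hl1
    have h1 : (l : ℤ) ∣ (2 * d * M ^ 2 + a * e ^ 2) ^ 2 := by
      refine ⟨4 * d * (l * N' ^ 2) + c * e ^ 4, ?_⟩
      rw [hc] at key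
      linear_combination -key
    obtain ⟨X, hX⟩ := hp.dvd_of_dvd_pow h1
    have h2 : (l : ℤ) * (c * e ^ 4) = l * (l * (X ^ 2 - 4 * d * N' ^ 2)) := by
      rw [hX, hc] at key
      linear_combination key
    have h3 : (l : ℤ) ∣ c * e ^ 4 := ⟨_, mul_left_cancel₀ hl0 h2⟩
    have hlc : ¬ (l : ℤ) ∣ c := by
      rintro ⟨c', rfl⟩
      apply hl22
      rw [hc]
      exact ⟨c', by ring⟩
    have he : (l : ℤ) ∣ e := by
      rcases hp.dvd_or_dvd h3 with h4 | h4
      · exact absurd h4 hlc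
      · exact hp.dvd_of_dvd_pow h4
    have h5 : (l : ℤ) ∣ 2 * d * M ^ 2 := by
      have h6 : 2 * d * M ^ 2 = l * X - a * e ^ 2 := by rw [← hX]; ring
      rw [h6]
      exact dvd_sub (dvd_mul_right _ _) ((dvd_pow he two_ne_zero).mul_left a)
    have hM : (l : ℤ) ∣ M := by
      rcases hp.dvd_or_dvd h5 with h6 | h6
      · rcases hp.dvd_or_dvd h6 with h7 | h7
        · exact absurd h7 hl2'
        · exact absurd h7 hld
      · exact hp.dvd_of_dvd_pow h6
    have h7 : IsUnit (l : ℤ) := h.cop.isUnit_of_dvd' (hM.mul_left d) he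
    exact hp.not_unit h7
  · have hd0 : (d : ZMod l) ≠ 0 := by
      intro h0
      exact hld ((ZMod.intCast_zmod_eq_zero_iff_dvd d l).1 h0)
    have hN0 : (N : ZMod l) ≠ 0 := by
      intro h0
      exact hN ((ZMod.intCast_zmod_eq_zero_iff_dvd N l).1 h0)
    have h20 : (2 : ZMod l) ≠ 0 := by
      intro h0
      apply hl2'
      have h1 : ((2 : ℤ) : ZMod l) = 0 := by exact_mod_cast h0
      exact (ZMod.intCast_zmod_eq_zero_iff_dvd 2 l).1 h1
    have h10 : ((a ^ 2 - 4 * b : ℤ) : ZMod l) = 0 :=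
      (ZMod.intCast_zmod_eq_zero_iff_dvd _ l).2 hl1
    rw [legendreSym.eq_one_iff l hd0]
    refine ⟨((2 * d * M ^ 2 + a * e ^ 2 : ℤ) : ZMod l) / (2 * N), ?_⟩
    have h11 := congrArg (fun z : ℤ => (z : ZMod l)) key
    simp only [Int.cast_sub, Int.cast_mul, Int.cast_pow] at h11 h10
    rw [h10, zero_mul, sub_zero] at h11
    rw [div_mul_div_comm, eq_div_iff (mul_ne_zero (mul_ne_zero h20 hN0) (mul_ne_zero h20 hN0))]
    push_cast at h11 ⊢
    linear_combination h11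

end Pool.Agent.G02.H17
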